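import Pool.Agent.H61.EsC

set_option autoImplicit false

namespace Pool.Agent.Results.MP_27090e_nt.IffEven

open Filter Topology Pool.Agent.H61.Es

theorem result :
    (∀ (l : List Idx) (t : Idx), (∀ x ∈ l, 1 ≤ x.1) → 2 ≤ t.1 →
      Tendsto (trunc (l ++ [t]).reverse) atTop (𝓝 (zeta (l ++ [t])))) ∧
    ∀ d : ℕ, 3 ≤ d →
      (sharp ([(2, false)] ++ List.replicate (d - 3) (1, false) ++ [(2, true)])
        = 1 / 2 * zeta [(d + 1, false)]
          - 2 * ∑ n ∈ (Finset.Icc 2 d).filter Even, zeta [(d + 1 - n, false), (n, false)]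
        ↔ Even d) := by
  refine ⟨fun l t hl ht => ?_, main⟩
  have h := tendsto_zeta (l ++ [t]).reverse ⟨?_, t, l.reverse, by simp, ht⟩
  · rwa [List.reverse_reverse] at h
  · intro s hs
    simp only [List.mem_reverse, List.mem_append, List.mem_singleton] at hs
    rcases hs with hs | rfl
    exacts [hl s hs, by omega]

end Pool.Agent.Results.MP_27090e_nt.IffEven
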